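import Mathlib
import Pool.Agent.Y959.Smp.Core

set_option autoImplicit false

/-!
# The large value conjecture for random sets: sharp range of the number of points

Q1 asks for `R ≤ C N² V⁻² T^ε` for all `1`-spaced families in `[0,T]` and all `V² ≥ N T^ε`. Here `M`
points are chosen independently at random, one in each of `M` arbitrary progressions
`s_i, s_i + 1, …, s_i + T - 1` (for `s_i = 0`: `M` random integers of `[0,T)`), `T` arbitrary. With
probability `≥ 1 - N^(-A)` ALL Dirichlet polynomials and ALL subsets `W` of the random set satisfy the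
conjectured bound `|W| ≤ C N² V⁻²` without any loss, as soon as
`M (1 + N^k/T) N^ε ≤ c (V²/N)^(k-1) N` for some `k ≤ K`. For instance for `T ≥ N^k` and all
`V ≥ N^(1/2+δ)` the number of the points may be `M = N^(1 + 2(k-1)δ - ε)`.

The proof is the sampling theorem for large values (`Pool/Agent/Y959/Smp`): an extremal subset `W'` of a
set of large values has a small random sample such that the signed sum of the vectors `n^{it}` over the
sample is a Dirichlet polynomial which is large on a positive proportion of `W'`.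
-/

namespace Pool.Agent.Results.MP_a93a41_nt.RandomSetsSharpRange

open Finset Pool.Agent.Y959.Smp Pool.Agent.Y959.Her

/-- `D(it) = ∑_{n ∈ I} a_n n^{-it}` (`I = {1, …, N}` in the problem) -/
noncomputable def D (I : Finset ℕ) (a : ℕ → ℂ) (t : ℝ) : ℂ :=
  ∑ n ∈ I, a n * (n : ℂ) ^ (-((t : ℂ) * Complex.I))

/-- `∑_{n ∈ I} |a_n|²` -/
noncomputable def G (I : Finset ℕ) (a : ℕ → ℂ) : ℝ := ∑ n ∈ I, ‖a n‖ ^ 2

/-- For ALL coefficients, all `V > 0` and ALL sets `W` of indices with `|D(i t_i)| ≥ V` for `i ∈ W`: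
(1) `|W| ≤ C |I| G / V²`, or `|W| ≤ C L M (1 + N^k/T) (G/V²)^k` for all `1 ≤ k ≤ K` (`L = N^ε`);
(2) `|W| ≤ (C + 1) |I| G / V²` if `C L M (1 + N^k/T) G^(k-1) ≤ V^(2(k-1)) |I|` for some
`1 ≤ k ≤ K`. -/
def LargeValues {M : ℕ} (I : Finset ℕ) (N T K : ℕ) (C L : ℝ) (t : Fin M → ℝ) : Prop :=
  ∀ (a : ℕ → ℂ) (V : ℝ) (W : Finset (Fin M)), 0 < V → (∀ i ∈ W, V ≤ ‖D I a (t i)‖) →
    (V ^ 2 * W.card ≤ C * I.card * G I a ∨ ∀ k ∈ Icc 1 K,
      V ^ (2 * k) * W.card ≤ C * L * M * (1 + (N : ℝ) ^ k / T) * G I a ^ k) ∧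
    (∀ k ∈ Icc 1 K, C * L * M * (1 + (N : ℝ) ^ k / T) * G I a ^ (k - 1) ≤ V ^ (2 * (k - 1)) * I.card →
      V ^ 2 * W.card ≤ (C + 1) * I.card * G I a)

theorem norm_D (I : Finset ℕ) (hI : ∀ n ∈ I, 1 ≤ n) (a : ℕ → ℂ) (t : ℝ) :
    ‖D I a t‖ = ‖∑ n ∈ I, (starRingEnd ℂ) (a n) * Pool.Agent.TH705.DL.ph t n‖ := by
  rw [← Complex.norm_conj (D I a t)]
  congr 1
  unfold D
  rw [map_sum]
  apply sum_congr rfl
  intro n hn
  have hn0 : (n : ℂ) ≠ 0 := by exact_mod_cast (by have := hI n hn; omega : n ≠ 0)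
  rw [map_mul]
  congr 1
  unfold Pool.Agent.TH705.DL.ph
  rw [Complex.cpow_def_of_ne_zero hn0, ← Complex.natCast_log, ← Complex.exp_conj]
  congr 1
  simp only [map_mul, map_neg, Complex.conj_ofReal, Complex.conj_I]
  push_cast
  ring

/-- **Main theorem.** -/
theorem result (ε A B : ℝ) (hε : 0 < ε) (hA : 0 ≤ A) (hB : 0 ≤ B) (K : ℕ) (hK : 1 ≤ K) :
    ∃ C : ℝ, 0 < C ∧ ∀ N M T : ℕ, 1 ≤ N → (M : ℝ) ≤ (N : ℝ) ^ B → 1 ≤ T →
      ∀ I : Finset ℕ, I ⊆ Icc 1 N → ∀ s : Fin M → ℝ,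
        (Nat.card {u : Fin M → Fin T //
          ¬ LargeValues I N T K C ((N : ℝ) ^ ε) (fun i => s i + ((u i : ℕ) : ℝ))} : ℝ) ≤
          (N : ℝ) ^ (-A) * (T : ℝ) ^ M := by
  classical
  obtain ⟨C, hC, h⟩ := core_k ε A B hε hA hB K hK
  refine ⟨C, hC, ?_⟩
  intro N M T hN hM hT I hI s
  have h1 := h N (Fin M) hN (by rw [Fintype.card_fin]; exact hM) T hT I hI s
  rw [Fintype.card_fin] at h1
  refine le_trans ?_ h1
  rw [Nat.card_eq_fintype_card, Fintype.card_subtype]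
  have h3 : ∀ S T' : Finset (Fin M → Fin T), S ⊆ T' → (S.card : ℝ) ≤ (T'.card : ℝ) :=
    fun S T' h => by exact_mod_cast card_le_card h
  apply h3
  intro u hu
  rw [mem_filter] at hu ⊢
  refine ⟨mem_univ _, fun hg => hu.2 ?_⟩
  intro a V W hV hW
  have hGd : G I a = ∑ n ∈ I, ‖(starRingEnd ℂ) (a n)‖ ^ 2 := by
    unfold G
    simp only [RCLike.norm_conj]
  have hG0 : 0 ≤ G I a := sum_nonneg fun _ _ => sq_nonneg _
  have h2 := hg (fun n => (starRingEnd ℂ) (a n)) V W hV (fun i hi => by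
      have := hW i hi
      rwa [norm_D I (fun n hn => (mem_Icc.1 (hI hn)).1)] at this)
  rw [← hGd, Fintype.card_fin] at h2
  refine ⟨h2, ?_⟩
  intro k hk hkV
  have hCI : 0 ≤ (I.card : ℝ) * G I a := mul_nonneg (Nat.cast_nonneg _) hG0
  rcases h2 with h4 | h4
  · refine h4.trans ?_
    have e : (C + 1) * I.card * G I a = C * I.card * G I a + I.card * G I a := by ring
    linarith
  · have h5 := h4 k hk
    obtain ⟨j, rfl⟩ : ∃ j, k = j + 1 := ⟨k - 1, by have := (mem_Icc.1 hk).1; omega⟩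
    rw [Nat.add_sub_cancel] at hkV
    have h6 : V ^ (2 * j) * (V ^ 2 * W.card) ≤ V ^ (2 * j) * (I.card * G I a) := by
      calc V ^ (2 * j) * (V ^ 2 * W.card) = V ^ (2 * (j + 1)) * W.card := by ring
        _ ≤ C * (N : ℝ) ^ ε * M * (1 + (N : ℝ) ^ (j + 1) / T) * G I a ^ (j + 1) := h5
        _ = (C * (N : ℝ) ^ ε * M * (1 + (N : ℝ) ^ (j + 1) / T) * G I a ^ j) * G I a := by ring
        _ ≤ (V ^ (2 * j) * I.card) * G I a := mul_le_mul_of_nonneg_right hkV hG0
        _ = V ^ (2 * j) * (I.card * G I a) := by ring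
    have h7 : V ^ 2 * W.card ≤ I.card * G I a := le_of_mul_le_mul_left h6 (by positivity)
    have e : (C + 1) * I.card * G I a = C * (I.card * G I a) + I.card * G I a := by ring
    have : 0 ≤ C * (I.card * G I a) := mul_nonneg hC.le hCI
    linarith

end Pool.Agent.Results.MP_a93a41_nt.RandomSetsSharpRange
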