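import Mathlib
import Pool.Agent.Y959.Rs.RealF

set_option autoImplicit false

/-!
# Large values of Dirichlet polynomials supported on a random set, at arbitrary well-spaced points

Q1 asks for `R ≤ C N² V⁻² T^ε` for all `1`-spaced families `t_1, …, t_R` in `[0,T]` with
`|D(i t_r)| ≥ V`, `V² ≥ N T^ε`, `D(s) = ∑_{n ≤ N} a_n n^{-s}`, `|a_n| ≤ 1`; it is known for
`V² > N T^(1/2+ε)`. Here the support of `a` is a random set `I` of `k` integers of `[1, N]`; the
coefficients on `I` and the `1`-spaced family are arbitrary, `T ≤ N^Q`. For all but a proportion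
`N^(-A)` of the sets `I`, simultaneously for all coefficients, all `T ≤ N^Q`, all `V` and all families:

(1) if `V² ≥ C N^ε k (1 + (k/N) √T)` then `R ≤ C N^ε k² V⁻²`: the known range `V² > N T^(1/2+ε)`
    improves by the factor `(k/N)²` (as long as `V² > k N^ε`), with `k²` in place of `N²` in the bound;
(2) if `T ≤ N^j`, `k^j ≤ N V^(j-1)` and `V² ≥ C N^ε k` then `R ≤ C N^(2+ε) V⁻²`: Q1 for all values
    `V ≥ max(C N^(1/2 + ε), (k^j/N)^(1/(j-1)))`.

The proof uses the method of Maurey and a union bound (`Pool/Agent/Y959/Rs`).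
-/

namespace Pool.Agent.Results.MP_a93a41_nt.RandomSupports

open Finset

/-- The Dirichlet polynomial `D(it) = ∑_{n ∈ I} a_n n^{-it}`. -/
noncomputable def D (I : Finset ℕ) (a : ℕ → ℂ) (t : ℝ) : ℂ :=
  ∑ n ∈ I, a n * Complex.exp (-(Complex.I * (t : ℂ) * (Real.log (n : ℝ) : ℂ)))

/-- The large value estimates for all coefficients on `I` and all `1`-spaced families `S`. -/
def Good (C ε : ℝ) (Q N k : ℕ) (I : Finset ℕ) : Prop :=
  ∀ (T V : ℝ) (S : Finset ℝ) (a : ℕ → ℂ), 0 ≤ T → T ≤ (N : ℝ) ^ Q → 0 < V →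
    (∀ t ∈ S, 0 ≤ t ∧ t ≤ T) → (∀ t ∈ S, ∀ u ∈ S, t ≠ u → 1 ≤ |t - u|) →
    (∀ n, ‖a n‖ ≤ 1) → (∀ t ∈ S, V ≤ ‖D I a t‖) →
    (C * (N : ℝ) ^ ε * (k * (1 + k / N * Real.sqrt T)) ≤ V ^ 2 →
      (S.card : ℝ) * V ^ 2 ≤ C * (N : ℝ) ^ ε * (k : ℝ) ^ 2) ∧
    (∀ j : ℕ, 1 ≤ j → j ≤ Q → T ≤ (N : ℝ) ^ j → (k : ℝ) ^ j ≤ N * V ^ (j - 1) →
      C * (N : ℝ) ^ ε * k ≤ V ^ 2 → (S.card : ℝ) * V ^ 2 ≤ C * (N : ℝ) ^ ε * (N : ℝ) ^ 2)

open Classical in
theorem result (ε A : ℝ) (hε : 0 < ε) (hA : 0 ≤ A) (Q : ℕ) (hQ : 1 ≤ Q) :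
    ∃ C : ℝ, 0 < C ∧ ∀ N k : ℕ, 1 ≤ N →
      (((powersetCard k (Icc 1 N)).filter (fun I => ¬ Good C ε Q N k I)).card : ℝ) ≤
        (N : ℝ) ^ (-A) * ((powersetCard k (Icc 1 N)).card : ℝ) := by
  obtain ⟨C, hC, h⟩ := Pool.Agent.Y959.Rs.goodR_count ε A hε hA Q hQ
  have hC0 : 0 < C := by linarith
  refine ⟨3 * C, by positivity, ?_⟩
  intro N k hN
  have hN1 : (1 : ℝ) ≤ N := by exact_mod_cast hN
  have hN0 : (0 : ℝ) < N := by linarith
  have hk0 : (0 : ℝ) ≤ k := Nat.cast_nonneg _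
  have hNε : 0 < (N : ℝ) ^ ε := Real.rpow_pos_of_pos hN0 _
  refine le_trans ?_ (h N k hN)
  have hsub : (powersetCard k (Icc 1 N)).filter (fun I => ¬ Good (3 * C) ε Q N k I) ⊆
      (powersetCard k (Icc 1 N)).filter (fun I => ¬ Pool.Agent.Y959.Rs.GoodR N Q k C ε I) := by
    intro I hI
    rw [mem_filter] at hI ⊢
    refine ⟨hI.1, fun hG => hI.2 ?_⟩
    have hIF := (mem_powersetCard.1 hI.1).1
    have hIk := (mem_powersetCard.1 hI.1).2
    intro T V S a hT hTQ hV hS hsep ha hVS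
    have hconj : ∀ t : ℝ, ‖D I a t‖ =
        ‖∑ n ∈ I, (starRingEnd ℂ) (a n) * Pool.Agent.TH705.DL.ph t n‖ := by
      intro t
      rw [← Pool.Agent.Y959.Rs.conj_norm]
      unfold D Pool.Agent.TH705.DL.ph
      congr 1
      apply sum_congr rfl
      intro n _
      congr 2
      push_cast
      ring
    have ha' : ∀ n, ‖(starRingEnd ℂ) (a n)‖ ≤ 1 := fun n => by
      rw [Complex.norm_conj]
      exact ha n
    have hVS' : ∀ t ∈ S, V ≤ ‖∑ n ∈ I, (starRingEnd ℂ) (a n) * Pool.Agent.TH705.DL.ph t n‖ :=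
      fun t ht => by
        rw [← hconj]
        exact hVS t ht
    constructor
    · intro hbig
      have h1 : 2 * C * (N : ℝ) ^ ε * (k * (1 + k / N * Real.sqrt T)) ≤ V ^ 2 := by
        refine le_trans ?_ hbig
        apply mul_le_mul_of_nonneg_right _ (by positivity)
        apply mul_le_mul_of_nonneg_right _ hNε.le
        linarith
      have h2 := Pool.Agent.Y959.Rs.lv_hm N Q k hN C ε hC I hIk hG T hT hTQ S hS hsep
        (fun n => (starRingEnd ℂ) (a n)) ha' V hV hVS' h1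
      refine h2.trans ?_
      apply mul_le_mul_of_nonneg_right _ (by positivity)
      apply mul_le_mul_of_nonneg_right _ hNε.le
      linarith
    · intro j hj1 hjQ hTj hkj hbig
      have h1 : C * (N : ℝ) ^ ε * k < V ^ 2 := by
        rcases hk0.lt_or_eq with hk | hk
        · refine lt_of_lt_of_le ?_ hbig
          apply mul_lt_mul_of_pos_right _ hk
          apply mul_lt_mul_of_pos_right _ hNε
          linarith
        · rw [← hk, mul_zero]
          positivity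
      exact Pool.Agent.Y959.Rs.lv_mom N Q k hN C ε hC I hIF hIk hG T hT hTQ S hS hsep
        (fun n => (starRingEnd ℂ) (a n)) ha' V hV hVS' j hj1 hjQ hTj hkj h1
  exact_mod_cast card_le_card hsub

end Pool.Agent.Results.MP_a93a41_nt.RandomSupports
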